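import Pool.Agent.Helper29.UG.Props
import Pool.Agent.Helper10.RC.Fin
import Pool.Agent.Helper45.RC.DomM
import Pool.Agent.Helper6.RC.CuLeAdd
import Pool.Agent.Helper89.RC.CuSwap
import Pool.Agent.Helper65.RC.CuAdd
import Pool.Agent.Helper67.RC.Ped
import Pool.Agent.Helper69.RC.QB1
import Pool.Agent.Helper31.RC.QB2
import Pool.Agent.Helper96.RC.QSwap
import Pool.Agent.Helper15.RC.QMono
import Pool.Agent.Helper8.RC.QOfT

/-!
# MP_b55b7c_an, project UG: domination by the quasitraces of invariant tracial states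
-/

open scoped ENNReal NNReal InnerProductSpace ComplexOrder
open Filter Topology

attribute [-instance] CStarMatrix.instAlgebra CStarMatrix.instModule CStarMatrix.instSMul
  CStarMatrix.instMulAction CStarMatrix.instDistribMulAction

noncomputable section
namespace RC
universe u

/-- `domMP` for one quasitrace. -/
theorem domM_one (h1 : CuAddP.{u}) (h2 : CuSwapP.{u}) (h3 : QMonoP.{u}) (h4 : QDsumP.{u})
    (h5 : QBasicP.{u}) {A : Type u} [CStarAlgebra A] [PartialOrder A] [StarOrderedRing A]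
    (σ σ₀ : QTrace A) (C : ℝ) (hC : 0 ≤ C)
    (hD : ∀ x : A, 0 ≤ x → σ.dim (one1 x) ≤ C * σ₀.dim (one1 x)) (κ : Type) [Fintype κ]
    [DecidableEq κ] (x : CStarMatrix κ κ A) (hx : 0 ≤ x) :
    σ.dim x ≤ C * Fintype.card κ * σ₀.dim x := by
  -- the square root
  obtain ⟨s, hs0, hs⟩ : ∃ s : CStarMatrix κ κ A, 0 ≤ s ∧ s * s = x :=
    ⟨CFC.sqrt x, CFC.sqrt_nonneg x, CFC.sqrt_mul_sqrt_self x hx⟩
  have hss : star s = s := hs0.isSelfAdjoint.star_eq
  set z : κ → CStarMatrix κ Unit A := fun i => CStarMatrix.ofMatrix fun j _ => s j i with hz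
  have hzx : x = ∑ i, z i * (z i).conjTranspose := by
    have hx' : x = s * star s := by rw [hss, hs]
    rw [hx']
    ext j k
    have hsum : ∀ (f : κ → CStarMatrix κ κ A), (∑ i, f i) j k = ∑ i, f i j k := by
      intro f
      exact Matrix.sum_apply _ _ _ _
    rw [hsum, CStarMatrix.mul_apply]
    refine Finset.sum_congr rfl fun i _ => ?_
    rw [CStarMatrix.mul_apply]
    simp [hz, CStarMatrix.star_apply, CStarMatrix.conjTranspose_apply]
  have hzz : ∀ i, (z i).conjTranspose * z i = one1 (x i i) := by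
    intro i
    have hx' : x = star s * s := by rw [hss, hs]
    ext a b
    rw [hx', CStarMatrix.mul_apply]
    show _ = (star s * s) i i
    rw [CStarMatrix.mul_apply]
    refine Finset.sum_congr rfl fun j _ => ?_
    simp [hz, CStarMatrix.star_apply, CStarMatrix.conjTranspose_apply]
  have hxi : ∀ i, 0 ≤ x i i := by
    intro i
    have hx' : x = star s * s := by rw [hss, hs]
    rw [hx', CStarMatrix.mul_apply]
    refine Finset.sum_nonneg fun j _ => ?_
    rw [CStarMatrix.star_apply]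
    exact star_mul_self_nonneg _
  have hone : ∀ i, 0 ≤ one1 (x i i) := fun i => by
    rw [← hzz i]; exact cm_conj_mul_nonneg _
  have hterm : ∀ i, σ.dim (z i * (z i).conjTranspose) ≤ C * σ₀.dim x := by
    intro i
    have e1 := h2 A κ Unit (z i) 0 le_rfl
    rw [cut_zero (cm_mul_conj_nonneg _), cut_zero (cm_conj_mul_nonneg _), hzz i] at e1
    have e2 := h3 A σ κ Unit _ _ (cm_mul_conj_nonneg _) (hone i) e1
    have e3 := hD (x i i) (hxi i)
    have e4 : Cu (one1 (x i i)) x := by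
      intro ε hε
      refine ⟨CStarMatrix.ofMatrix fun _ j => if j = i then 1 else 0, ?_⟩
      have : (CStarMatrix.ofMatrix (fun _ j => if j = i then 1 else 0) : CStarMatrix Unit κ A) * x *
          (CStarMatrix.ofMatrix (fun _ j => if j = i then 1 else 0) :
            CStarMatrix Unit κ A).conjTranspose - one1 (x i i) = 0 := by
        rw [sub_eq_zero]
        ext a b
        rw [CStarMatrix.mul_apply]
        show _ = x i i
        rw [Finset.sum_eq_single i]
        · rw [CStarMatrix.mul_apply, Finset.sum_eq_single i]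
          · simp [CStarMatrix.conjTranspose_apply]
          · intro j _ hj
            simp [hj]
          · intro h; exact absurd (Finset.mem_univ _) h
        · intro j _ hj
          simp [CStarMatrix.conjTranspose_apply, hj]
        · intro h; exact absurd (Finset.mem_univ _) h
      rw [this, norm_zero]
      exact hε
    have e5 := h3 A σ₀ Unit κ _ _ (hone i) hx e4
    calc σ.dim (z i * (z i).conjTranspose) ≤ σ.dim (one1 (x i i)) := e2
      _ ≤ C * σ₀.dim (one1 (x i i)) := e3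
      _ ≤ C * σ₀.dim x := mul_le_mul_of_nonneg_left e5 hC
  calc σ.dim x = σ.dim (∑ i, z i * (z i).conjTranspose) := by rw [← hzx]
    _ ≤ ∑ i, σ.dim (z i * (z i).conjTranspose) :=
        domM_sum h1 h3 h4 h5 σ κ _ (fun i => cm_mul_conj_nonneg _) Finset.univ
    _ ≤ ∑ _i : κ, C * σ₀.dim x := Finset.sum_le_sum fun i _ => hterm i
    _ = C * Fintype.card κ * σ₀.dim x := by
        rw [Finset.sum_const, Finset.card_univ, nsmul_eq_mul]; ring


/-- `dom_avg` for one quasitrace. -/
theorem dom_avg_one (hB : QBasicP.{u}) {A : Type u} [CStarAlgebra A] [PartialOrder A]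
    [StarOrderedRing A] (φ : TState A) (C : ℝ) (hC0 : 0 ≤ C) (σ : QTrace A)
    (hC : ∀ x : A, 0 ≤ x → σ.τ Unit (one1 x) ≤ C * (φ.φ x).re)
    {G : Type} [Group G] [Fintype G] (α : G → A ≃⋆ₐ[ℂ] A) (h : IsAct α)
    (σ₀ : QTrace A) (hσ₀ : IsQ (avg φ α) σ₀) (x : A) (hx : 0 ≤ x) :
    σ.dim (one1 x) ≤ C * Fintype.card G * σ₀.dim (one1 x) := by
  refine ciSup_le fun n => ?_
  have hsa := hx.isSelfAdjoint
  rw [← one1_cfc _ (by fun_prop) x hsa]
  have h0 : 0 ≤ cfc (fun t : ℝ => min 1 ((n : ℝ) * t)) x := cfc_nonneg fun t ht =>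
    le_min zero_le_one (mul_nonneg (by positivity) (spectrum_nonneg_of_nonneg hx ht))
  have h1 := hC _ h0
  have h2 := le_avg φ α h _ h0
  have h3 : σ₀.τ Unit (one1 (cfc (fun t : ℝ => min 1 ((n : ℝ) * t)) x)) =
      ((avg φ α).φ (cfc (fun t : ℝ => min 1 ((n : ℝ) * t)) x)).re := by
    rw [hσ₀ Unit]; simp [one1]
  have h4 : σ₀.τ Unit (one1 (cfc (fun t : ℝ => min 1 ((n : ℝ) * t)) x)) ≤
      σ₀.dim (one1 x) := by
    rw [one1_cfc _ (by fun_prop) x hsa]
    exact le_ciSup (hB A σ₀ Unit (one1 x) (one1_nonneg hx)).1 n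
  rw [h3] at h4
  calc _ ≤ _ := h1
    _ ≤ C * (Fintype.card G * σ₀.dim (one1 x)) := by
      refine mul_le_mul_of_nonneg_left (h2.trans ?_) hC0
      exact mul_le_mul_of_nonneg_left h4 (by positivity)
    _ = _ := by ring

/-- packet DomInv, from the elementary facts -/
theorem domInvP_of (h1 : CuAddP.{u}) (h2 : CuSwapP.{u}) (h3 : QMonoP.{u}) (h4 : QDsumP.{u})
    (h5 : QBasicP.{u}) (h6 : QOfTP.{u}) : DomInvP.{u} := by
  intro A _ _ _ C hC G _ _ α hα
  refine ⟨max C 0 * Fintype.card G, by positivity, fun σ => ?_⟩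
  obtain ⟨φ, hφ⟩ := hC σ
  obtain ⟨σ₀, hσ₀⟩ := h6 A (avg φ α)
  refine ⟨avg φ α, σ₀, fun g a => avg_inv φ α hα g a, hσ₀, fun κ _ _ x hx => ?_⟩
  refine domM_one h1 h2 h3 h4 h5 σ σ₀ _ (by positivity) (fun y hy => ?_) κ x hx
  refine dom_avg_one h5 φ _ (le_max_right C 0) σ (fun z hz => ?_) α hα σ₀ hσ₀ y hy
  refine (hφ z hz).trans ?_
  exact mul_le_mul_of_nonneg_right (le_max_left C 0) (Complex.le_def.1 (φ.nonneg z hz)).1

/-- packet DomInv -/
theorem domInvP : DomInvP.{u} :=
  domInvP_of (cuAddP Pool.Agent.Helper6.RC.cuLeAddP) (cuSwapP intP)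
    (qMonoP pedP (qSwapP intP) qBasicP) (qDsumP qBasicP) qBasicP qOfTP

end RC
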